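import Mathlib

set_option autoImplicit false

namespace Pool.Agent.Results.MP_befaea_co.LargestSquareOddCube

open Finset

/-- A congruent copy of the cube `[0,s]^m`, placed in `ℝ^N` by an affine isometry, is contained in
the unit cube `[0,1]^N`. -/
def Inscribed (m N : ℕ) (s : ℝ) : Prop :=
  0 ≤ s ∧ ∃ φ : EuclideanSpace ℝ (Fin m) →ᵃⁱ[ℝ] EuclideanSpace ℝ (Fin N),
    ∀ x : EuclideanSpace ℝ (Fin m), (∀ i, x i ∈ Set.Icc (0 : ℝ) s) →
      ∀ j, φ x j ∈ Set.Icc (0 : ℝ) 1

/-- `f(m, N)`: the largest edge of an `m`-dimensional cube inscribed in `[0,1]^N`. -/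
noncomputable def f (m N : ℕ) : ℝ := sSup {s : ℝ | Inscribed m N s}

/-- The key inequality for one coordinate. -/
theorem coord {d x t : ℝ} (hx : 0 ≤ x) (hxd : x ≤ d) (hd : x + d ≤ 3 / 4)
    (ht : t ^ 2 = (1 - d) ^ 2 - x ^ 2) : 1 - |t| ≤ 4 / 3 * d := by
  have h1 : (1 - 4 / 3 * d) ^ 2 ≤ t ^ 2 := by
    rw [ht]
    rcases le_total d (3 / 8) with h | h
    · nlinarith [mul_nonneg (sub_nonneg.mpr hxd) (add_nonneg hx (hx.trans hxd)),
        mul_nonneg (hx.trans hxd) (sub_nonneg.mpr h)]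
    · nlinarith [mul_nonneg hx (sub_nonneg.mpr hxd), mul_nonneg hx (sub_nonneg.mpr hd),
        mul_nonneg (hx.trans hxd) (sub_nonneg.mpr h),
        mul_nonneg (sub_nonneg.mpr hxd) (by linarith : (0 : ℝ) ≤ 3 / 4 - d)]
  have h2 := sq_le_sq.mp h1
  have h3 := le_abs_self (1 - 4 / 3 * d)
  linarith

/-- The upper bound. -/
theorem upper {N : ℕ} (hN : Odd N) (u v : Fin N → ℝ) (huv : ∀ i, |u i| + |v i| ≤ 1)
    (horth : ∑ i, u i * v i = 0) (hnorm : ∑ i, (u i) ^ 2 = ∑ i, (v i) ^ 2) :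
    3 / 4 ≤ ∑ i, (1 - (u i) ^ 2 - (v i) ^ 2) := by
  classical
  by_contra hcon
  push Not at hcon
  set D := ∑ i, (1 - (u i) ^ 2 - (v i) ^ 2) with hD
  set d : Fin N → ℝ := fun i => 1 - (u i) ^ 2 - (v i) ^ 2 with hd
  set x : Fin N → ℝ := fun i => 2 * |u i * v i| with hx
  set t : Fin N → ℝ := fun i => (u i) ^ 2 - (v i) ^ 2 with ht
  have hxnn : ∀ i, 0 ≤ x i := fun i => by positivity
  have hxd : ∀ i, x i ≤ d i := by
    intro i
    simp only [hx, hd]
    rw [abs_mul]
    have h1 := huv i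
    have h2 := abs_nonneg (u i)
    have h3 := abs_nonneg (v i)
    rw [← sq_abs (u i), ← sq_abs (v i)]
    nlinarith
  have hsum : ∀ i, x i + d i ≤ D := by
    intro i
    have h1 : u i * v i = - ∑ j ∈ univ.erase i, u j * v j := by
      rw [← add_sum_erase _ _ (mem_univ i)] at horth
      linarith
    have h2 : x i ≤ ∑ j ∈ univ.erase i, x j := by
      simp only [hx]
      rw [h1, abs_neg, ← mul_sum]
      exact mul_le_mul_of_nonneg_left (abs_sum_le_sum_abs _ _) (by norm_num)
    have h3 : ∑ j ∈ univ.erase i, x j ≤ ∑ j ∈ univ.erase i, d j :=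
      sum_le_sum fun j _ => hxd j
    have h4 := add_sum_erase univ d (mem_univ i)
    have h5 : D = ∑ j, d j := rfl
    linarith
  have hcoord : ∀ i, 1 - |t i| ≤ 4 / 3 * d i := by
    intro i
    refine coord (hxnn i) (hxd i) (by linarith [hsum i]) ?_
    simp only [hx, hd, ht]
    rw [mul_pow, sq_abs]
    ring
  have htot : ∑ i, (1 - |t i|) < 1 := by
    calc ∑ i, (1 - |t i|) ≤ ∑ i, 4 / 3 * d i := sum_le_sum fun i _ => hcoord i
      _ = 4 / 3 * D := by rw [← mul_sum]
      _ < 1 := by linarith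
  have ht1 : ∀ i, |t i| ≤ 1 := by
    intro i
    have h1 := huv i
    have h2 := abs_nonneg (u i)
    have h3 := abs_nonneg (v i)
    simp only [ht]
    rw [← sq_abs (u i), ← sq_abs (v i), abs_le]
    constructor <;> nlinarith
  -- parity
  set σ : Fin N → ℤ := fun i => if 0 ≤ t i then 1 else -1 with hσ
  have hodd : Odd (∑ i, σ i) := by
    have h1 : ∀ i, σ i = 2 * (if 0 ≤ t i then 1 else 0) - 1 := by
      intro i
      simp only [hσ]
      split_ifs <;> norm_num
    rw [sum_congr rfl fun i _ => h1 i, sum_sub_distrib, ← mul_sum]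
    simp only [sum_const, card_univ, Fintype.card_fin, nsmul_eq_mul, mul_one]
    have h2 : Odd ((N : ℕ) : ℤ) := by exact_mod_cast hN
    exact (even_two_mul _).sub_odd h2
  have hne : (1 : ℝ) ≤ |((∑ i, σ i : ℤ) : ℝ)| := by
    have h1 : (∑ i, σ i) ≠ 0 := by
      intro h
      rw [h] at hodd
      exact absurd hodd (by decide)
    have := Int.one_le_abs h1
    exact_mod_cast this
  have ht0 : ∑ i, t i = 0 := by
    simp only [ht]
    rw [sum_sub_distrib, hnorm, sub_self]
  have hle : |((∑ i, σ i : ℤ) : ℝ)| ≤ ∑ i, (1 - |t i|) := by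
    have h1 : ((∑ i, σ i : ℤ) : ℝ) = ∑ i, ((σ i : ℝ) - t i) := by
      rw [sum_sub_distrib, ht0, sub_zero]
      push_cast
      rfl
    rw [h1]
    refine (abs_sum_le_sum_abs _ _).trans (sum_le_sum fun i _ => ?_)
    have h2 := ht1 i
    simp only [hσ]
    split_ifs with h
    · rw [abs_of_nonneg h] at h2 ⊢
      push_cast
      rw [abs_of_nonneg (by linarith)]
    · push Not at h
      rw [abs_of_neg h] at h2 ⊢
      push_cast
      rw [abs_of_nonpos (by linarith)]
      linarith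
  linarith

/-- The coordinates of the first edge of the extremal square. -/
noncomputable def U (k j : ℕ) : ℝ := if j ≤ 1 then 3 / 4 else if j ≤ k + 1 then 1 else 0

/-- The coordinates of the second edge of the extremal square. -/
noncomputable def V (k j : ℕ) : ℝ :=
  if j = 0 then 1 / 4 else if j = 1 then - (1 / 4) else if j ≤ k + 1 then 0 else 1

theorem sum_split {k : ℕ} (g : ℕ → ℝ) (a b : ℝ) (ha : ∀ j, 2 ≤ j → j ≤ k + 1 → g j = a)
    (hb : ∀ j, k + 2 ≤ j → g j = b) :
    ∑ j : Fin (2 * (k + 1) + 1), g j = g 0 + g 1 + k * a + (k + 1) * b := by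
  rw [Fin.sum_univ_eq_sum_range, show 2 * (k + 1) + 1 = 2 + k + (k + 1) by ring,
    sum_range_add, sum_range_add]
  have h1 : ∑ x ∈ range k, g (2 + x) = k * a := by
    rw [sum_congr rfl fun x hx => ha (2 + x) (by omega) (by have := mem_range.mp hx; omega)]
    simp
  have h2 : ∑ x ∈ range (k + 1), g (2 + k + x) = (k + 1) * b := by
    rw [sum_congr rfl fun x hx => hb (2 + k + x) (by omega)]
    simp
  rw [h1, h2, sum_range_succ, sum_range_succ, sum_range_zero]
  ring

theorem inscribed_sqrt (k : ℕ) :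
    Inscribed 2 (2 * (k + 1) + 1) (Real.sqrt (((k + 1 : ℕ) : ℝ) + 1 / 8)) := by
  set s := Real.sqrt (((k + 1 : ℕ) : ℝ) + 1 / 8) with hs
  have hpos : (0 : ℝ) < ((k + 1 : ℕ) : ℝ) + 1 / 8 := by positivity
  have hs0 : 0 < s := Real.sqrt_pos.mpr hpos
  have hs2 : s ^ 2 = ((k + 1 : ℕ) : ℝ) + 1 / 8 := Real.sq_sqrt hpos.le
  refine ⟨hs0.le, ?_⟩
  set u : EuclideanSpace ℝ (Fin (2 * (k + 1) + 1)) := WithLp.toLp 2 (fun j => U k j) with hu
  set v : EuclideanSpace ℝ (Fin (2 * (k + 1) + 1)) := WithLp.toLp 2 (fun j => V k j) with hv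
  set p : EuclideanSpace ℝ (Fin (2 * (k + 1) + 1)) :=
    WithLp.toLp 2 (fun j => if (j : ℕ) = 1 then 1 / 4 else 0) with hp
  have huu : ∑ j : Fin (2 * (k + 1) + 1), U k j ^ 2 = s ^ 2 := by
    rw [sum_split (fun j => U k j ^ 2) 1 0, hs2]
    · simp only [U]
      norm_num
      ring
    · intro j h1 h2
      simp only [U]
      rw [if_neg (by omega), if_pos h2]
      norm_num
    · intro j h1
      simp only [U]
      rw [if_neg (by omega), if_neg (by omega)]
      norm_num
  have hvv : ∑ j : Fin (2 * (k + 1) + 1), V k j ^ 2 = s ^ 2 := by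
    rw [sum_split (fun j => V k j ^ 2) 0 1, hs2]
    · simp only [V]
      norm_num
      ring
    · intro j h1 h2
      simp only [V]
      rw [if_neg (by omega), if_neg (by omega), if_pos h2]
      norm_num
    · intro j h1
      simp only [V]
      rw [if_neg (by omega), if_neg (by omega), if_neg (by omega)]
      norm_num
  have huv : ∑ j : Fin (2 * (k + 1) + 1), U k j * V k j = 0 := by
    rw [sum_split (fun j => U k j * V k j) 0 0]
    · simp only [U, V]
      norm_num
    · intro j h1 h2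
      simp only [V]
      rw [if_neg (by omega), if_neg (by omega), if_pos h2]
      norm_num
    · intro j h1
      simp only [U]
      rw [if_neg (by omega), if_neg (by omega)]
      norm_num
  let L₀ : EuclideanSpace ℝ (Fin 2) →ₗ[ℝ] EuclideanSpace ℝ (Fin (2 * (k + 1) + 1)) :=
    { toFun := fun x => (x 0 / s) • u + (x 1 / s) • v
      map_add' := by
        intro x y
        ext j
        simp
        ring
      map_smul' := by
        intro c x
        ext j
        simp
        ring }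
  have hL : ∀ x, ‖L₀ x‖ = ‖x‖ := by
    intro x
    rw [EuclideanSpace.norm_eq, EuclideanSpace.norm_eq]
    congr 1
    simp only [L₀, LinearMap.coe_mk, AddHom.coe_mk, hu, hv, PiLp.add_apply, PiLp.smul_apply,
      smul_eq_mul, Real.norm_eq_abs, sq_abs, Fin.sum_univ_two]
    have h1 : ∀ j : Fin (2 * (k + 1) + 1), (x 0 / s * U k j + x 1 / s * V k j) ^ 2 =
        (x 0 / s) ^ 2 * U k j ^ 2 + (x 1 / s) ^ 2 * V k j ^ 2
          + 2 * (x 0 / s) * (x 1 / s) * (U k j * V k j) := fun j => by ring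
    rw [sum_congr rfl fun j _ => h1 j, sum_add_distrib, sum_add_distrib, ← mul_sum, ← mul_sum,
      ← mul_sum, huu, hvv, huv]
    field_simp
    ring
  let L : EuclideanSpace ℝ (Fin 2) →ₗᵢ[ℝ] EuclideanSpace ℝ (Fin (2 * (k + 1) + 1)) := ⟨L₀, hL⟩
  refine ⟨(AffineIsometryEquiv.constVAdd ℝ _ p).toAffineIsometry.comp L.toAffineIsometry, ?_⟩
  intro x hx j
  have hval : ((AffineIsometryEquiv.constVAdd ℝ _ p).toAffineIsometry.comp L.toAffineIsometry) x j
      = (if (j : ℕ) = 1 then 1 / 4 else 0) + (x 0 / s * U k j + x 1 / s * V k j) := by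
    simp [L, L₀, hu, hv, hp]
  rw [hval]
  have h0 : x 0 / s ∈ Set.Icc (0 : ℝ) 1 := ⟨div_nonneg (hx 0).1 hs0.le, (div_le_one hs0).mpr (hx 0).2⟩
  have h1 : x 1 / s ∈ Set.Icc (0 : ℝ) 1 := ⟨div_nonneg (hx 1).1 hs0.le, (div_le_one hs0).mpr (hx 1).2⟩
  generalize x 0 / s = a at h0
  generalize x 1 / s = b at h1
  generalize (j : ℕ) = j'
  rw [Set.mem_Icc] at h0 h1 ⊢
  by_cases e0 : j' = 0
  · subst e0
    simp only [U, V]
    norm_num
    constructor <;> linarith
  by_cases e1 : j' = 1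
  · subst e1
    simp only [U, V]
    norm_num
    constructor <;> linarith
  by_cases e2 : j' ≤ k + 1
  · simp only [U, V, if_neg e0, if_neg e1, if_pos e2, if_neg (by omega : ¬ j' ≤ 1)]
    constructor <;> linarith
  · simp only [U, V, if_neg e0, if_neg e1, if_neg e2, if_neg (by omega : ¬ j' ≤ 1)]
    constructor <;> linarith

theorem le_sqrt {n : ℕ} {s : ℝ} (h : Inscribed 2 (2 * n + 1) s) :
    s ≤ Real.sqrt ((n : ℝ) + 1 / 8) := by
  obtain ⟨hs, φ, hφ⟩ := h
  apply Real.le_sqrt_of_sq_le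
  set e₀ : EuclideanSpace ℝ (Fin 2) := EuclideanSpace.single 0 s with he₀
  set e₁ : EuclideanSpace ℝ (Fin 2) := EuclideanSpace.single 1 s with he₁
  set u := φ.linearIsometry e₀ with hu
  set v := φ.linearIsometry e₁ with hv
  have hmap : ∀ x, φ x = φ.linearIsometry x + φ 0 := by
    intro x
    have := φ.map_vadd 0 x
    simpa using this
  have hp := hφ 0 (fun i => by simp [hs])
  have hpu := hφ e₀ (fun i => by
    fin_cases i <;> simp [he₀, hs])
  have hpv := hφ e₁ (fun i => by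
    fin_cases i <;> simp [he₁, hs])
  have hpuv := hφ (e₀ + e₁) (fun i => by
    fin_cases i <;> simp [he₀, he₁, hs])
  rw [hmap e₀] at hpu
  rw [hmap e₁] at hpv
  rw [hmap (e₀ + e₁), map_add] at hpuv
  simp only [← hu, ← hv] at hpu hpv hpuv
  simp only [PiLp.add_apply, Set.mem_Icc] at hp hpu hpv hpuv
  have key := upper (N := 2 * n + 1) ⟨n, rfl⟩ (fun i => u i) (fun i => v i) (by
      intro i
      have h1 := hp i
      have h2 := hpu i
      have h3 := hpv i
      have h4 := hpuv i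
      rcases abs_cases (u i) with ⟨h5, _⟩ | ⟨h5, _⟩ <;> rcases abs_cases (v i) with ⟨h6, _⟩ | ⟨h6, _⟩ <;>
        rw [h5, h6] <;> linarith)
    (by
      have h1 : inner ℝ u v = (0 : ℝ) := by
        rw [hu, hv, LinearIsometry.inner_map_map]
        simp [he₀, he₁, EuclideanSpace.inner_single_left]
      rw [PiLp.inner_apply] at h1
      rw [← h1]
      refine sum_congr rfl fun i _ => ?_
      simp [mul_comm])
    (by
      have h1 : ‖u‖ = ‖v‖ := by
        rw [hu, hv, LinearIsometry.norm_map, LinearIsometry.norm_map]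
        simp [he₀, he₁]
      rw [EuclideanSpace.norm_eq, EuclideanSpace.norm_eq, Real.sqrt_inj (by positivity) (by positivity)] at h1
      simpa using h1)
  have hu2 : ∑ i, (u i) ^ 2 = s ^ 2 := by
    have h1 : ‖u‖ ^ 2 = s ^ 2 := by
      rw [hu, LinearIsometry.norm_map]
      simp [he₀]
    rw [EuclideanSpace.norm_eq, Real.sq_sqrt (by positivity)] at h1
    simpa using h1
  have hv2 : ∑ i, (v i) ^ 2 = s ^ 2 := by
    have h1 : ‖v‖ ^ 2 = s ^ 2 := by
      rw [hv, LinearIsometry.norm_map]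
      simp [he₁]
    rw [EuclideanSpace.norm_eq, Real.sq_sqrt (by positivity)] at h1
    simpa using h1
  rw [sum_sub_distrib, sum_sub_distrib, hu2, hv2] at key
  simp only [sum_const, card_univ, Fintype.card_fin, nsmul_eq_mul, mul_one] at key
  push_cast at key
  linarith

/-- The largest square in the unit cube of dimension `2n+1` has edge `√(n + 1/8)`. -/
theorem result (n : ℕ) (hn : 1 ≤ n) :
    IsGreatest {s : ℝ | Inscribed 2 (2 * n + 1) s} (Real.sqrt ((n : ℝ) + 1 / 8)) ∧
    f 2 (2 * n + 1) = Real.sqrt ((n : ℝ) + 1 / 8) := by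
  have h : IsGreatest {s : ℝ | Inscribed 2 (2 * n + 1) s} (Real.sqrt ((n : ℝ) + 1 / 8)) := by
    refine ⟨?_, fun s hs => le_sqrt hs⟩
    obtain ⟨k, rfl⟩ : ∃ k, n = k + 1 := ⟨n - 1, by omega⟩
    exact inscribed_sqrt k
  exact ⟨h, h.csSup_eq⟩

end Pool.Agent.Results.MP_befaea_co.LargestSquareOddCube
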